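import Mathlib
import Pool.Agent.Helper183_AV.Line

/-!
# The `p`-adic closure of subgroups of simple abelian varieties

Let `A` be an abelian variety over `ℚ` of dimension `n ≥ 1`, simple over `ℚ`. Then `D = End(A) ⊗ ℚ` is a division algebra of
finite dimension over `ℚ`, `M = A(ℚ) ⊗ ℚ` is a finite-dimensional left vector space over `D`, and `D` acts on
`Lie A ≅ ℚ ^ n`; this is the homomorphism `ρ`. The logarithm `A(ℚ_p) → Lie A ⊗ ℚ_p` gives a map
`log : M → ℚ_p ^ n` which is compatible with the action of `D` (`Equivariant`). The `ℤ_p`-rank of the closure of a finitely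
generated subgroup `L` of `A(ℚ)` is the dimension over `ℚ_p` of the span of the logarithms of its elements: this is
`closureRank log W` for `W = L ⊗ ℚ`, whose dimension is the rank `m` of `L`. Q1 asks whether
`closureRank log W = dim W` if `dim W ≤ n`.

1. The structural rank. Let `b` be a basis of `M` over `D`. For every `W` there is a nonzero polynomial `Φ` with rational
   coefficients in the `r n` coordinates of the logarithms of the elements of the basis, which depends only on
   `D, M, ρ, b, W` (not on `p` or on the logarithm) such that the closure has the rank `min (m, n)` if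
   `Φ` does not vanish at these logarithms. So a failure of Q1 means that these logarithms satisfy an
   algebraic relation with rational coefficients, and Q1 (for all `L` in `A(ℚ)`) follows from their algebraic
   independence. That `D` is a division algebra, i.e. that `A` is simple, is used; the
   assertion is false for `A = E × E × E`.

2. An unconditional case. Let `θ ∈ D` and let `F = ℚ(θ)` be the commutative subfield it generates, `P` a point of
   infinite order; `line θ P = F P`. Then the closure of every `L` has a rank at least `dim (W ∩ F P)`, in particular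
   Q1 holds for all `L` with `L ⊗ ℚ ⊂ F P`, at all primes `p`. The hypothesis `NoRelation` says
   that the coordinates of `log P` are linearly independent over the algebraic numbers in an algebraically closed field which
   contains `ℚ_p`. For `A` simple and `P` of infinite order this is known: it is the `p`-adic
   analytic subgroup theorem (Bertrand, Matev, Fuchs and Pham), since the algebraic subgroup generated by the rational point
   `P` is defined over `ℚ` and therefore of finite index in `A`.
-/

set_option autoImplicit false

open Module

namespace Pool.Agent.Results.MP_52423f_nt.StructuralRank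

open Pool.Agent.Helper183_AV

/-- The `r n` coordinates of the logarithms of the elements of the basis `b`. -/
noncomputable def logCoords {D M κ : Type} [DivisionRing D] [AddCommGroup M] [Module D M] [Module ℚ M]
    [Field κ] [Algebra ℚ κ] {n r : ℕ} (b : Basis (Fin r) D M) (log : M →ₗ[ℚ] (Fin n → κ)) :
    Fin r × Fin n → κ :=
  fun x => log (b x.1) x.2

theorem result {D M : Type} [DivisionRing D] [Algebra ℚ D] [FiniteDimensional ℚ D]
    [AddCommGroup M] [Module D M] [Module ℚ M] [IsScalarTower ℚ D M] [FiniteDimensional ℚ M]
    {n r : ℕ} (hn : 0 < n) (ρ : D →ₐ[ℚ] Matrix (Fin n) (Fin n) ℚ) (b : Basis (Fin r) D M) :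
    -- 1. the structural rank is `min (m, n)`
    (∀ W : Submodule ℚ M, ∃ Φ : MvPolynomial (Fin r × Fin n) ℚ, Φ ≠ 0 ∧
      ∀ (κ : Type) [Field κ] [Algebra ℚ κ] (log : M →ₗ[ℚ] (Fin n → κ)), Equivariant ρ log →
        MvPolynomial.aeval (logCoords b log) Φ ≠ 0 →
          closureRank log W = min (finrank ℚ W) n) ∧
    -- 2. the consequence for algebraically independent logarithms
    (∀ (κ : Type) [Field κ] [Algebra ℚ κ] (log : M →ₗ[ℚ] (Fin n → κ)), Equivariant ρ log →
      AlgebraicIndependent ℚ (logCoords b log) →
        ∀ W : Submodule ℚ M, closureRank log W = min (finrank ℚ W) n) ∧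
    -- 3. lines over commutative subfields
    (∀ (κ Ω : Type) [Field κ] [Algebra ℚ κ] [Field Ω] [Algebra ℚ Ω] [Algebra κ Ω] [IsAlgClosed Ω]
      (log : M →ₗ[ℚ] (Fin n → κ)), Equivariant ρ log → ∀ (θ : D) (P : M),
        NoRelation Ω (log P) → ∀ W : Submodule ℚ M,
          finrank ℚ (W ⊓ line θ P : Submodule ℚ M) ≤ closureRank log W ∧
            (W ≤ line θ P → closureRank log W = finrank ℚ W)) := by
  refine ⟨fun W => structural' ρ b W, ?_, ?_⟩
  · intro κ _ _ log hlog hind W
    obtain ⟨Φ, h0, h1⟩ := structural' ρ b W
    refine h1 κ log hlog ?_
    intro h2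
    exact h0 ((injective_iff_map_eq_zero _).mp hind Φ h2)
  · intro κ Ω _ _ _ _ _ _ log hlog θ P hP W
    have h1 := line_rank hn Ω ρ log hlog θ P hP W
    refine ⟨h1, fun hW => ?_⟩
    rw [inf_eq_left.mpr hW] at h1
    exact le_antisymm (closureRank_le_finrank log W) h1

end Pool.Agent.Results.MP_52423f_nt.StructuralRank
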